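import Pool.Agent.W2helper24.AD.Lap
import Pool.Agent.W2helper24.AD.Prof

/-!
# MP_ad2fa1_an: a negative solution need not be radially symmetric

For every real `N ≥ 0` there are `p, q` satisfying all of (H1)-(H8) and a negative solution of
`Δu + p(|x|) q(e^u) = 4πN δ` on the plane which is not radially symmetric about the origin. If `N`
is a positive integer then `p` is the constant `1`.

Idea: all hypotheses allow `q(s) = s` for `s` near `0`; for such `q` a sufficiently negative `u` only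
sees the Liouville equation, which has the non-radial solutions
`u = log (8 m² L |z|^{2N} / (1 + L |z^m - 1|²)²)` for `p(r) = r^{2(m-1-N)}`. When `L` is small these are
as negative as one likes on the whole plane.
-/

set_option autoImplicit false

open MeasureTheory Filter Topology Set
open scoped ENNReal ContDiff Laplacian

namespace Pool.Agent.Results.MP_ad2fa1_an.NonRadial

/-- The plane `ℝ²`. -/
abbrev Plane : Type := EuclideanSpace ℝ (Fin 2)

/-- `f(t) = e^{2t} p(e^t)`. -/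
noncomputable def fOf (p : ℝ → ℝ) (t : ℝ) : ℝ := Real.exp (2 * t) * p (Real.exp t)

/-- `g(u) = q(e^u)`. -/
noncomputable def gOf (q : ℝ → ℝ) (u : ℝ) : ℝ := q (Real.exp u)

/-- The integral `∫_0^∞ f(t) g(-M t) dt ∈ [0, ∞]` (the integrand is nonnegative under (H2)). -/
noncomputable def tailInt (f g : ℝ → ℝ) (M : ℝ) : ℝ≥0∞ :=
  ∫⁻ t in Ioi (0 : ℝ), ENNReal.ofReal (f t * g (-(M * t)))

/-- `M₀ = inf {M > 0 : ∫_0^∞ f(t) g(-M t) dt < ∞}`. -/
noncomputable def M0 (f g : ℝ → ℝ) : ℝ := sInf {M : ℝ | 0 < M ∧ tailInt f g M < ⊤}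

/-- `G₀(u) = ∫_{-∞}^u g`. -/
noncomputable def G0 (g : ℝ → ℝ) (u : ℝ) : ℝ := ∫ x in Iic u, g x

/-- The hypotheses (H1)-(H8) on `f` and `g`. -/
structure Hypotheses (f g : ℝ → ℝ) : Prop where
  /-- (H1): `f, g` are continuously differentiable, -/
  contDiff_f : ContDiff ℝ 1 f
  contDiff_g : ContDiff ℝ 1 g
  /-- `∫_{-∞}^0 |t f(t)| dt < ∞`, -/
  integrable_f : IntegrableOn (fun t => |t * f t|) (Iio 0)
  /-- and `g`, `g'` are bounded. -/
  bounded_g : ∃ C : ℝ, ∀ u, |g u| + |deriv g u| ≤ C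
  /-- (H2): `f > 0`, -/
  f_pos : ∀ t, 0 < f t
  /-- `f(t) → ∞` as `t → ∞`, -/
  f_top : Tendsto f atTop atTop
  /-- `g(0) = 0`, -/
  g_zero : g 0 = 0
  /-- and `g > 0` on the negative half line. -/
  g_pos : ∀ u, u < 0 → 0 < g u
  /-- (H3): `f' ≥ 0`. -/
  f_mono : ∀ t, 0 ≤ deriv f t
  /-- (H4) -/
  h4 : ∃ M : ℝ, 0 < M ∧ (∀ u, u < -M → 0 < deriv g u) ∧ tailInt f g M < ⊤
  /-- (H5): the integral diverges for `M = M₀`, -/
  h5 : tailInt f g (M0 f g) = ⊤
  /-- and `inf_{t > 0} f(t - c) / f(t) > 0` for every `c > 0`. -/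
  h5' : ∀ c : ℝ, 0 < c → ∃ κ : ℝ, 0 < κ ∧ ∀ t, 0 < t → κ ≤ f (t - c) / f t
  /-- (H6): `G₀` is well defined, -/
  integrable_g : ∀ u, IntegrableOn g (Iic u)
  /-- the limits `f₁` and `g₁` exist and are finite, and (H7): `F₁ ≥ f₁` on the line and
  `G₁ ≥ g₁` on the negative half line. -/
  h67 : ∃ f₁ g₁ : ℝ, Tendsto (fun t => deriv f t / f t) atTop (𝓝 f₁) ∧
    Tendsto (fun u => G0 g u / g u) atBot (𝓝 g₁) ∧
    (∀ t, f₁ ≤ deriv f t / f t) ∧ ∀ u, u < 0 → g₁ ≤ G0 g u / g u
  /-- (H8): `g' ≤ 0` on some interval `[-δ, 0]`. -/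
  h8 : ∃ δ : ℝ, 0 < δ ∧ ∀ u, -δ ≤ u → u ≤ 0 → deriv g u ≤ 0

/-- `u` is a solution of `Δu + p(|x|) q(e^u) = 4πN δ` on `ℝ²`: it is locally integrable, smooth away
from the origin, the nonlinear term is locally integrable, and the equation holds in the sense of
distributions. -/
structure IsSolution (N : ℝ) (p q : ℝ → ℝ) (u : Plane → ℝ) : Prop where
  locallyIntegrable : LocallyIntegrable u
  smooth : ContDiffOn ℝ ∞ u {0}ᶜ
  locallyIntegrable_rhs : LocallyIntegrable (fun x => p ‖x‖ * q (Real.exp (u x)))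
  equation : ∀ φ : Plane → ℝ, ContDiff ℝ ∞ φ → HasCompactSupport φ →
    ∫ x, (u x * Δ φ x + p ‖x‖ * q (Real.exp (u x)) * φ x) = 4 * Real.pi * N * φ 0

open Pool.Agent.W2helper24.AD

/-- The hypotheses hold for `f(t) = e^{a t}` and the function `gg`. -/
lemma hypotheses_exp {a : ℝ} (ha : 2 ≤ a) : Hypotheses (fun t => Real.exp (a * t)) gg := by
  have hd : ∀ t, HasDerivAt (fun t : ℝ => Real.exp (a * t)) (a * Real.exp (a * t)) t := by
    intro t
    have h1 : HasDerivAt (fun t : ℝ => a * t) a t := by simpa using (hasDerivAt_id t).const_mul a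
    exact h1.exp.congr_deriv (by ring)
  have hd' : deriv (fun t : ℝ => Real.exp (a * t)) = fun t => a * Real.exp (a * t) :=
    funext fun t => (hd t).deriv
  have hg' : deriv gg = gg' := funext fun u => (hasDerivAt_gg u).deriv
  have hF : ∀ t, deriv (fun t : ℝ => Real.exp (a * t)) t / Real.exp (a * t) = a := by
    intro t
    rw [hd']
    have := (Real.exp_pos (a * t)).ne'
    field_simp
  have hM0 : {M : ℝ | 0 < M ∧ tailInt (fun t => Real.exp (a * t)) gg M < ⊤} = Ioi a := by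
    ext M
    simp only [mem_ofPred_eq, mem_Ioi]
    constructor
    · rintro ⟨h0, h1⟩
      by_contra hM
      push Not at hM
      exact h1.ne (J_top h0 hM)
    · intro h
      exact ⟨by linarith, J_lt h⟩
  refine ⟨?_, contDiff_gg, ?_, ⟨6, fun u => ?_⟩, fun t => Real.exp_pos _, ?_, ?_, ?_, ?_, ?_, ?_, ?_,
    integrableOn_gg, ⟨a, 1, ?_, ?_, ?_, ?_⟩, ⟨1 / 2, by norm_num, ?_⟩⟩
  · exact Real.contDiff_exp.comp (contDiff_const.mul contDiff_id)
  · -- `|t| e^{a t} ≤ e^{t}` for `t < 0`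
    refine Integrable.mono' (g := Real.exp) ((integrableOn_exp_Iic 0).mono_set Iio_subset_Iic_self) ?_ ?_
    · have : Continuous fun t : ℝ => |t * Real.exp (a * t)| := by fun_prop
      exact this.aestronglyMeasurable.restrict
    · refine (ae_restrict_mem measurableSet_Iio).mono fun t ht => ?_
      have ht : t < 0 := ht
      rw [Real.norm_eq_abs, abs_abs, abs_mul, abs_of_neg ht, abs_of_pos (Real.exp_pos _)]
      have h1 : Real.exp (a * t) ≤ Real.exp t * Real.exp t := by
        rw [← Real.exp_add]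
        apply Real.exp_le_exp.2
        nlinarith
      have h2 : -t * Real.exp t ≤ 1 := by
        have h3 : -t ≤ Real.exp (-t) := by
          have := Real.add_one_le_exp (-t)
          linarith
        have h4 : -t * Real.exp t ≤ Real.exp (-t) * Real.exp t :=
          mul_le_mul_of_nonneg_right h3 (Real.exp_pos t).le
        rw [← Real.exp_add] at h4
        simpa using h4
      calc -t * Real.exp (a * t) ≤ -t * (Real.exp t * Real.exp t) :=
            mul_le_mul_of_nonneg_left h1 (by linarith)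
        _ = (-t * Real.exp t) * Real.exp t := by ring
        _ ≤ 1 * Real.exp t := mul_le_mul_of_nonneg_right h2 (Real.exp_pos t).le
        _ = Real.exp t := one_mul _
  · rw [hg']; exact gg_bound u
  · exact Real.tendsto_exp_atTop.comp (tendsto_id.const_mul_atTop (by linarith))
  · unfold gg; rw [chi_zero le_rfl, mul_zero]
  · intro u hu
    exact mul_pos (Real.exp_pos u) (chi_pos hu)
  · intro t
    rw [hd']
    have := Real.exp_pos (a * t)
    positivity
  · refine ⟨a + 1, by linarith, ?_, J_lt (by linarith)⟩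
    intro u hu
    rw [hg']
    exact gg'_pos (by linarith)
  · unfold M0
    rw [hM0, csInf_Ioi]
    exact J_top (by linarith) le_rfl
  · intro c hc
    refine ⟨Real.exp (-(a * c)), Real.exp_pos _, fun t _ => ?_⟩
    rw [← Real.exp_sub]
    apply le_of_eq
    congr 1
    ring
  · simp only [hF]
    exact tendsto_const_nhds
  · refine (tendsto_const_nhds (x := (1 : ℝ))).congr' ?_
    filter_upwards [Iic_mem_atBot (-1 : ℝ)] with u hu
    unfold G0
    rw [G0_eq hu, gg_eq_exp hu, div_self (Real.exp_pos u).ne']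
  · intro t
    exact (hF t).ge
  · intro u hu
    have h1 : 0 < gg u := mul_pos (Real.exp_pos u) (chi_pos hu)
    rw [le_div_iff₀ h1, one_mul]
    exact gg_le_G0 u
  · intro u h1 h2
    rw [hg']
    exact gg'_nonpos h1 h2

/-- The size of the Liouville function. -/
lemma density_le {N : ℝ} (hN : 0 ≤ N) {b : ℕ} (hb : N ≤ b) {x : Plane} (hx : x ≠ 0) :
    ‖x‖ ^ (2 * N) * (8 * ((b : ℝ) + 1) ^ 2 * (1 / (16 * ((b : ℝ) + 1))) ^ (2 * (b + 1))) /
      (1 + (1 / (16 * ((b : ℝ) + 1))) ^ (2 * (b + 1)) * PP (b + 1) x) ^ 2 ≤ 1 / 4 := by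
  set M : ℝ := (b : ℝ) + 1 with hM
  have hM1 : 1 ≤ M := by have : (0:ℝ) ≤ b := Nat.cast_nonneg b; linarith
  set ε : ℝ := 1 / (16 * M) with hε
  have hε0 : 0 < ε := by positivity
  have hε1 : ε ≤ 1 / 16 := by
    rw [hε]
    apply div_le_div_of_nonneg_left (by norm_num) (by norm_num)
    linarith
  set L : ℝ := ε ^ (2 * (b + 1)) with hL
  have hL0 : 0 < L := by positivity
  set ρ : ℝ := ‖x‖ with hρ
  have hρ0 : 0 < ρ := norm_pos_iff.2 hx
  -- `L ≤ ε²`
  have hLε : L ≤ ε ^ 2 := by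
    rw [hL]
    exact pow_le_pow_of_le_one hε0.le (by linarith) (by omega)
  have hLhalf : L ≤ 1 / 2 := by nlinarith
  -- `ρ^(2N) ≤ 1 + ρ^(2b)`
  have h1 : ρ ^ (2 * N) ≤ 1 + ρ ^ (2 * b) := by
    rcases le_total ρ 1 with h | h
    · have : ρ ^ (2 * N) ≤ 1 := Real.rpow_le_one hρ0.le h (by linarith)
      have h2 : 0 ≤ ρ ^ (2 * b) := by positivity
      linarith
    · have h3 : ρ ^ (2 * N) ≤ ρ ^ ((2 * b : ℕ) : ℝ) := by
        apply Real.rpow_le_rpow_of_exponent_le h
        push_cast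
        linarith
      rw [Real.rpow_natCast] at h3
      linarith
  set s : ℝ := ε * ρ with hs
  have hs0 : 0 < s := by positivity
  -- `L ρ^(2b) = ε² s^(2b)`
  have h2 : L * ρ ^ (2 * b) = ε ^ 2 * s ^ (2 * b) := by
    rw [hL, hs, mul_pow, show 2 * (b + 1) = 2 + 2 * b by ring, pow_add]
    ring
  have h3 : L * ρ ^ (2 * (b + 1)) = s ^ (2 * (b + 1)) := by
    rw [hL, hs, mul_pow]
  -- `|z^m - 1|² ≥ ρ^(2m) / 2 - 1`
  have h4 : ρ ^ (2 * (b + 1)) / 2 - 1 ≤ PP (b + 1) x := by
    unfold PP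
    set w : ℂ := toC x ^ (b + 1) with hw
    have hwn : Complex.normSq w = ρ ^ (2 * (b + 1)) := by
      rw [hw, map_pow, Complex.normSq_eq_norm_sq, norm_toC]
      ring
    rw [← hwn, Complex.normSq_apply, Complex.normSq_apply]
    simp only [Complex.sub_re, Complex.one_re, Complex.sub_im, Complex.one_im, sub_zero]
    nlinarith [sq_nonneg (w.re - 2), sq_nonneg w.im]
  have h5 : (1 + s ^ (2 * (b + 1))) / 2 ≤ 1 + L * PP (b + 1) x := by
    have : L * (ρ ^ (2 * (b + 1)) / 2 - 1) ≤ L * PP (b + 1) x :=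
      mul_le_mul_of_nonneg_left h4 hL0.le
    nlinarith
  have h6 : s ^ (2 * b) ≤ 1 + s ^ (2 * (b + 1)) := by
    rcases le_total s 1 with h | h
    · have : s ^ (2 * b) ≤ 1 := pow_le_one₀ hs0.le h
      have : 0 ≤ s ^ (2 * (b + 1)) := by positivity
      linarith
    · have : s ^ (2 * b) ≤ s ^ (2 * (b + 1)) := pow_le_pow_right₀ h (by omega)
      linarith
  set y : ℝ := 1 + s ^ (2 * (b + 1)) with hy
  have hy1 : 1 ≤ y := by
    have : 0 ≤ s ^ (2 * (b + 1)) := by positivity
    linarith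
  have hnum : ρ ^ (2 * N) * (8 * M ^ 2 * L) ≤ 16 * M ^ 2 * ε ^ 2 * y := by
    have e1 : ρ ^ (2 * N) * (8 * M ^ 2 * L) ≤ (1 + ρ ^ (2 * b)) * (8 * M ^ 2 * L) :=
      mul_le_mul_of_nonneg_right h1 (by positivity)
    have e2 : (1 + ρ ^ (2 * b)) * (8 * M ^ 2 * L) = 8 * M ^ 2 * (L + L * ρ ^ (2 * b)) := by ring
    rw [h2] at e2
    have e3 : L + ε ^ 2 * s ^ (2 * b) ≤ 2 * ε ^ 2 * y := by
      have : ε ^ 2 * s ^ (2 * b) ≤ ε ^ 2 * y := mul_le_mul_of_nonneg_left h6 (by positivity)
      nlinarith [sq_nonneg ε]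
    have e4 : 8 * M ^ 2 * (L + ε ^ 2 * s ^ (2 * b)) ≤ 8 * M ^ 2 * (2 * ε ^ 2 * y) :=
      mul_le_mul_of_nonneg_left e3 (by positivity)
    calc ρ ^ (2 * N) * (8 * M ^ 2 * L) ≤ (1 + ρ ^ (2 * b)) * (8 * M ^ 2 * L) := e1
      _ = 8 * M ^ 2 * (L + ε ^ 2 * s ^ (2 * b)) := e2
      _ ≤ 8 * M ^ 2 * (2 * ε ^ 2 * y) := e4
      _ = 16 * M ^ 2 * ε ^ 2 * y := by ring
  have hMε : M * ε = 1 / 16 := by
    rw [hε]; field_simp
  have hnum2 : 16 * M ^ 2 * ε ^ 2 * y = y / 16 := by
    have : 16 * M ^ 2 * ε ^ 2 * y = 16 * (M * ε) ^ 2 * y := by ring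
    rw [this, hMε]; ring
  rw [hnum2] at hnum
  have hden : y / 4 ≤ (1 + L * PP (b + 1) x) ^ 2 := by
    have : 0 ≤ y / 2 := by linarith
    have h7 : (y / 2) ^ 2 ≤ (1 + L * PP (b + 1) x) ^ 2 := pow_le_pow_left₀ this h5 2
    nlinarith
  have hden0 : 0 < (1 + L * PP (b + 1) x) ^ 2 := by
    have := one_add_pos hL0 (b + 1) x
    positivity
  rw [div_le_iff₀ hden0]
  linarith

/-- **Negative answer to Q1.** For every real `N ≥ 0` there are functions `p, q` such that
`f(t) = e^{2t} p(e^t)` and `g(u) = q(e^u)` satisfy all the hypotheses (H1)-(H8), and a negative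
solution `u` of `Δu + p(|x|) q(e^u) = 4πN δ` on `ℝ²` which is not radially symmetric about the
origin. Moreover `p` is a power, and it is the constant `1` if `N` is a positive integer. -/
theorem result : ∀ N : ℝ, 0 ≤ N → ∃ (p q : ℝ → ℝ) (u : Plane → ℝ),
    Hypotheses (fOf p) (gOf q) ∧ (∃ k : ℝ, ∀ r, p r = r ^ k) ∧
    ((∃ n : ℕ, 1 ≤ n ∧ N = n) → ∀ r, p r = 1) ∧
    IsSolution N p q u ∧ (∀ x, x ≠ 0 → u x < 0) ∧
    ¬ ∃ v : ℝ → ℝ, ∀ x, x ≠ 0 → u x = v ‖x‖ := by
  intro N hN
  -- the exponent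
  obtain ⟨b, hb1, hbN, hbn⟩ : ∃ b : ℕ, 1 ≤ b ∧ N ≤ b ∧ ((∃ n : ℕ, 1 ≤ n ∧ N = n) → N = b) := by
    refine ⟨max 1 ⌈N⌉₊, le_max_left _ _, ?_, ?_⟩
    · exact (Nat.le_ceil N).trans (by exact_mod_cast le_max_right _ _)
    · rintro ⟨n, hn, rfl⟩
      rw [Nat.ceil_natCast, max_eq_right hn]
  set M : ℝ := (b : ℝ) + 1 with hM
  set ε : ℝ := 1 / (16 * M) with hε
  set L : ℝ := ε ^ (2 * (b + 1)) with hL
  have hM0 : 0 < M := by positivity
  have hε0 : 0 < ε := by positivity
  have hL0 : 0 < L := by positivity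
  set k : ℝ := 2 * ((b : ℝ) - N) with hk
  have hk0 : 0 ≤ k := by rw [hk]; linarith
  set p : ℝ → ℝ := fun r => r ^ k with hp
  set q : ℝ → ℝ := fun s => s * chi (Real.log s) with hq
  set c0 : ℝ := 8 * M ^ 2 * L with hc0
  have hc0pos : 0 < c0 := by positivity
  set W : Plane → ℝ := fun x => Real.log c0 - 2 * LP L (b + 1) x with hW
  set u : Plane → ℝ := fun x => 2 * N * Real.log ‖x‖ + W x with hu
  have hWs : ∀ n : WithTop ℕ∞, ContDiff ℝ n W := fun n =>
    contDiff_const.sub (contDiff_const.mul (contDiff_LP hL0 _))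
  have hf : fOf p = fun t => Real.exp ((2 + k) * t) := by
    funext t
    unfold fOf
    simp only [hp]
    rw [← Real.exp_mul, ← Real.exp_add]
    congr 1; ring
  have hg : gOf q = gg := by
    funext t
    unfold gOf gg
    simp only [hq]
    rw [Real.log_exp]
  -- the exponential of `W`
  have hexpW : ∀ x, Real.exp (W x) = c0 / (1 + L * PP (b + 1) x) ^ 2 := by
    intro x
    simp only [hW]
    rw [Real.exp_sub, Real.exp_log hc0pos]
    congr 1
    unfold LP
    rw [two_mul, Real.exp_add, Real.exp_log (one_add_pos hL0 _ x)]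
    ring
  have hexpu : ∀ x, x ≠ 0 → Real.exp (u x) = ‖x‖ ^ (2 * N) * Real.exp (W x) := by
    intro x hx
    simp only [hu]
    rw [Real.exp_add]
    congr 1
    rw [Real.rpow_def_of_pos (norm_pos_iff.2 hx)]
    congr 1; ring
  have hle : ∀ x, x ≠ 0 → Real.exp (u x) ≤ 1 / 4 := by
    intro x hx
    rw [hexpu x hx, hexpW x, ← mul_div_assoc]
    exact density_le hN hbN hx
  have hu1 : ∀ x, x ≠ 0 → u x ≤ -1 := by
    intro x hx
    by_contra h
    push Not at h
    have h1 : Real.exp (-1) < Real.exp (u x) := Real.exp_lt_exp.2 h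
    have h2 : (1 : ℝ) / 4 < Real.exp (-1) := by
      rw [Real.exp_neg, one_div]
      apply inv_strictAnti₀ (Real.exp_pos 1)
      have := Real.exp_one_lt_d9
      linarith
    linarith [hle x hx]
  -- the nonlinear term
  have hnl : ∀ x, x ≠ 0 → p ‖x‖ * q (Real.exp (u x)) = - Δ W x := by
    intro x hx
    have hρ : 0 < ‖x‖ := norm_pos_iff.2 hx
    have h1 : q (Real.exp (u x)) = Real.exp (u x) := by
      simp only [hq]
      rw [Real.log_exp, chi_eq_one (hu1 x hx), mul_one]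
    have h2 : Δ W x = - (2 * Δ (LP L (b + 1)) x) := by
      have e1 : W = (fun _ => Real.log c0) + (-2 : ℝ) • LP L (b + 1) := by
        funext y
        simp only [hW, Pi.add_apply, Pi.smul_apply, smul_eq_mul]
        ring
      have hc2 : ContDiffAt ℝ 2 (LP L (b + 1)) x := (contDiff_LP hL0 _).contDiffAt
      have hc3 : ContDiffAt ℝ 2 ((-2 : ℝ) • LP L (b + 1)) x := contDiffAt_const.smul hc2
      have hc4 : ContDiffAt ℝ 2 (fun _ : Plane => Real.log c0) x := contDiffAt_const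
      rw [e1, hc4.laplacian_add hc3, InnerProductSpace.laplacian_smul _ hc2]
      simp
    rw [h1, h2, lap_LP hL0 b x, hexpu x hx, hexpW x]
    have h3 : p ‖x‖ * ‖x‖ ^ (2 * N) = ‖x‖ ^ (2 * b) := by
      simp only [hp]
      rw [← Real.rpow_add hρ, ← Real.rpow_natCast]
      congr 1
      rw [hk]; push_cast; ring
    rw [← mul_assoc, h3, hc0, hM]
    ring
  have hae : ∀ᵐ x : Plane, x ≠ 0 := by
    have : (volume : Measure Plane) {0} = 0 := measure_singleton _
    exact compl_mem_ae_iff.2 this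
  have hlapc : Continuous (Δ W) := Pool.Agent.H314.CS.LL.continuous_laplacian (hWs 2)
  refine ⟨p, q, u, ?_, ⟨k, fun r => rfl⟩, ?_, ⟨?_, ?_, ?_, ?_⟩, ?_, ?_⟩
  · rw [hf, hg]
    exact hypotheses_exp (by linarith)
  · intro hn r
    simp only [hp]
    have : k = 0 := by rw [hk, hbn hn]; ring
    rw [this, Real.rpow_zero]
  · -- local integrability of `u`
    have h1 := Pool.Agent.H314.CS.LL.locInt_log0
    have h2 : LocallyIntegrable (fun x : Plane => 2 * N * Real.log ‖x‖) := h1.smul (2 * N)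
    exact h2.add (hWs 0).continuous.locallyIntegrable
  · -- smoothness
    intro x hx
    have hx' : x ≠ 0 := hx
    have h1 : ContDiffAt ℝ ∞ (fun x : Plane => 2 * N * Real.log ‖x‖) x :=
      contDiffAt_const.mul ((contDiffAt_norm ℝ hx').log (norm_ne_zero_iff.2 hx'))
    exact (h1.add (hWs ∞).contDiffAt).contDiffWithinAt
  · -- local integrability of the nonlinear term
    have h1 : LocallyIntegrable (fun x => - Δ W x) := hlapc.neg.locallyIntegrable
    rw [locallyIntegrable_iff] at h1 ⊢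
    intro K hK
    refine (h1 K hK).congr ?_
    refine ae_restrict_of_ae ?_
    filter_upwards [hae] with x hx
    exact (hnl x hx).symm
  · -- the equation
    intro φ hφ hφc
    have hφ2 : ContDiff ℝ 2 φ := by exact_mod_cast contDiff_infty.1 hφ 2
    have hid := Pool.Agent.H314.CS.dist_identity (N := 1) (fun _ => 0) (fun _ => 2 * N) W φ (hWs 2)
      hφ2 hφc
    simp only [Finset.univ_unique, Finset.sum_singleton, sub_zero] at hid
    have hΔc := Pool.Agent.H314.CS.LL.continuous_laplacian hφ2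
    have hΔs := Pool.Agent.H314.CS.LL.hasCompactSupport_laplacian hφ2 hφc
    have i1 : Integrable (fun x => u x * Δ φ x) := by
      have h1 := Pool.Agent.H314.CS.LL.locInt_log0
      have h2 : LocallyIntegrable (fun x : Plane => 2 * N * Real.log ‖x‖) := h1.smul (2 * N)
      have h3 : LocallyIntegrable u := h2.add (hWs 0).continuous.locallyIntegrable
      exact h3.integrable_smul_right_of_hasCompactSupport hΔc hΔs
    have i2 : Integrable (fun x => - Δ W x * φ x) :=
      (hlapc.neg.mul hφ.continuous).integrable_of_hasCompactSupport hφc.mul_left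
    have e1 : ∫ x, (u x * Δ φ x + p ‖x‖ * q (Real.exp (u x)) * φ x) =
        ∫ x, (u x * Δ φ x + - Δ W x * φ x) := by
      refine integral_congr_ae ?_
      filter_upwards [hae] with x hx
      rw [hnl x hx]
    rw [e1, integral_add i1 i2]
    have e2 : ∫ x, u x * Δ φ x = (∫ x, Δ W x * φ x) + 2 * Real.pi * (2 * N * φ 0) := hid
    have e3 : ∫ x, - Δ W x * φ x = - ∫ x, Δ W x * φ x := by
      rw [← integral_neg]
      congr 1
      funext x
      ring
    rw [e2, e3]
    ring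
  · intro x hx
    linarith [hu1 x hx]
  · -- not radial
    rintro ⟨v, hv⟩
    set θ : ℝ := Real.pi / M with hθ
    set x1 : Plane := !₂[1, 0] with hx1
    set x2 : Plane := !₂[Real.cos θ, Real.sin θ] with hx2
    have z1 : toC x1 = 1 := by simp [toC, hx1]
    have z2 : toC x2 = Complex.exp (θ * Complex.I) := by
      rw [Complex.exp_mul_I]
      simp [toC, hx2]
    have n1 : ‖x1‖ = 1 := by rw [← norm_toC, z1]; simp
    have n2 : ‖x2‖ = 1 := by rw [← norm_toC, z2, Complex.norm_exp_ofReal_mul_I]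
    have hx1' : x1 ≠ 0 := by rw [← norm_ne_zero_iff, n1]; norm_num
    have hx2' : x2 ≠ 0 := by rw [← norm_ne_zero_iff, n2]; norm_num
    have h1 := hv x1 hx1'
    have h2 := hv x2 hx2'
    rw [n1] at h1
    rw [n2] at h2
    have h3 : u x1 = u x2 := by rw [h1, h2]
    have P1 : PP (b + 1) x1 = 0 := by
      unfold PP; rw [z1]; simp
    have P2 : PP (b + 1) x2 = 4 := by
      unfold PP
      rw [z2, ← Complex.exp_nat_mul]
      have : ((b + 1 : ℕ) : ℂ) * (θ * Complex.I) = Real.pi * Complex.I := by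
        rw [hθ, hM]
        push_cast
        have hne : ((b : ℂ) + 1) ≠ 0 := by exact_mod_cast Nat.succ_ne_zero b
        field_simp
      rw [this, Complex.exp_pi_mul_I]
      norm_num [Complex.normSq_apply]
    simp only [hu, hW, n1, n2] at h3
    unfold LP at h3
    rw [P1, P2] at h3
    have h4 : 0 < Real.log (1 + L * 4) := Real.log_pos (by linarith)
    simp at h3
    linarith [h4, h3]

end Pool.Agent.Results.MP_ad2fa1_an.NonRadial
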